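import Pool.Agent.Q44.WK.Loc

/-!
# Project WK: the final form
-/

set_option autoImplicit false

namespace Pool.Agent.Q44.WK

open MvPolynomial

/-- the final form of the theorem -/
def S_fin : Prop := ∀ (K : Type) [Field K] [NumberField K] (D : Dat K), D.ideal.IsPrime →
  (D.map (algebraMap K (AlgebraicClosure K))).Fibres → (D.swap.map (algebraMap K (AlgebraicClosure K))).Fibres →
  ∃ (E : Finset (V K × V K)) (N : ℕ), N ≠ 0 ∧ (∀ e ∈ E, D.On e.1 e.2) ∧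
    (∀ (r : ℕ) (L : Fin r → Type) [∀ i, NontriviallyNormedField (L i)] [∀ i, IsUltrametricDist (L i)]
      [∀ i, CompleteSpace (L i)] (σ : ∀ i, K →+* L i), (∀ i, DenseRange (σ i)) → (∀ i, ‖(N : L i)‖ = 1) →
      ∀ x y : V K, D.On x y → (∀ e ∈ E, ¬ Same x y e.1 e.2) →
      ∀ (U W : ∀ i, Set (V (L i))), (∀ i, U i ∈ nhds (σ i ∘ x) ∧ W i ∈ nhds (σ i ∘ y)) →
      ∀ f : MvPolynomial (Fin 3 ⊕ Fin 3) K,
        (∀ P Q : V K, D.On P Q → (∀ i, (∃ c : L i, c ≠ 0 ∧ c • (σ i ∘ P) ∈ U i) ∧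
          ∃ c : L i, c ≠ 0 ∧ c • (σ i ∘ Q) ∈ W i) → ∀ a b : K, eval (Sum.elim (a • P) (b • Q)) f = 0) →
        f ∈ D.ideal) ∧
    ∀ (L : Type) [NontriviallyNormedField L] [IsUltrametricDist L] [CompleteSpace L] (σ : K →+* L), DenseRange σ →
      ‖(N : L)‖ = 1 → ∀ x y : V L, x ≠ 0 → y ≠ 0 →
      D.closureIdeal σ x y = Set.univ ∨ D.closureIdeal σ x y = D.ideal ∨
        ∃ e ∈ E, Same x y (σ ∘ e.1) (σ ∘ e.2) ∧ D.closureIdeal σ x y = pointIdeal e.1 e.2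

theorem Same.on {K : Type} [Field K] {D : Dat K} {x y X Y : V K} (h : D.On x y) (hs : Same x y X Y) : D.On X Y := by
  obtain ⟨s, t, hs, ht, rfl, rfl⟩ := hs
  refine ⟨fun h0 => h.1 (by rw [h0, smul_zero]), fun h0 => h.2.1 (by rw [h0, smul_zero]), ?_, ?_⟩
  · have := h.2.2.1
    rw [lin_smul] at this
    exact (mul_eq_zero.mp this).resolve_left (mul_ne_zero hs ht)
  · have := h.2.2.2
    rw [quad_smul] at this
    exact (mul_eq_zero.mp this).resolve_left (mul_ne_zero (pow_ne_zero _ hs) (pow_ne_zero _ ht))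

theorem fin (htop : S_top) : S_fin := by
  classical
  intro K _ _ D hp h1 h2
  have t2 : (2 : AlgebraicClosure K) ≠ 0 := two_ne_zero
  obtain ⟨E₀, N, hN, htop⟩ := htop K D hp (fib _ t2 _ h1) (fib _ t2 _ h2)
  obtain ⟨E, hE⟩ : ∃ E : Finset (V K × V K), E = {e ∈ E₀ | D.On e.1 e.2} := ⟨_, rfl⟩
  have hEon : ∀ e ∈ E, D.On e.1 e.2 := by
    intro e he
    rw [hE, Finset.mem_filter] at he
    exact he.2
  have hE' : ∀ x y : V K, D.On x y → (∀ e ∈ E, ¬ Same x y e.1 e.2) →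
      ∀ e ∈ E₀, ¬ ∃ s t : K, s ≠ 0 ∧ t ≠ 0 ∧ x = s • e.1 ∧ y = t • e.2 := by
    intro x y hxy h e he hs
    refine h e ?_ hs
    rw [hE, Finset.mem_filter]
    exact ⟨he, Same.on hxy hs⟩
  have main : ∀ (r : ℕ) (L : Fin r → Type) [∀ i, NontriviallyNormedField (L i)] [∀ i, IsUltrametricDist (L i)]
      [∀ i, CompleteSpace (L i)] (σ : ∀ i, K →+* L i), (∀ i, DenseRange (σ i)) → (∀ i, ‖(N : L i)‖ = 1) →
      ∀ x y : V K, D.On x y → (∀ e ∈ E, ¬ Same x y e.1 e.2) →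
      ∀ (U W : ∀ i, Set (V (L i))), (∀ i, U i ∈ nhds (σ i ∘ x) ∧ W i ∈ nhds (σ i ∘ y)) →
      ∀ f : MvPolynomial (Fin 3 ⊕ Fin 3) K,
        (∀ P Q : V K, D.On P Q → (∀ i, (∃ c : L i, c ≠ 0 ∧ c • (σ i ∘ P) ∈ U i) ∧
          ∃ c : L i, c ≠ 0 ∧ c • (σ i ∘ Q) ∈ W i) → ∀ a b : K, eval (Sum.elim (a • P) (b • Q)) f = 0) →
        f ∈ D.ideal := by
    intro r L _ _ _ σ hσ hNL x y hxy hxyE U W hUW f hf
    have : ∀ i, ProperSpace (L i) := fun i => Pool.Agent.W279.Tri.properSpace_of_denseRange (σ i) (hσ i)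
    obtain ⟨ε₁, hε₁, hU⟩ := exists_ball (fun i => V (L i)) (fun i => σ i ∘ x) U fun i => (hUW i).1
    obtain ⟨ε₂, hε₂, hW⟩ := exists_ball (fun i => V (L i)) (fun i => σ i ∘ y) W fun i => (hUW i).2
    refine htop (Fin r) L σ hNL x y hxy (hE' x y hxy hxyE) (min ε₁ ε₂) (lt_min hε₁ hε₂) f ?_
    intro P Q hPQ h
    refine hf P Q hPQ fun i => ?_
    obtain ⟨⟨c, hc, h1⟩, c', hc', h2⟩ := h i
    refine ⟨⟨c, hc, hU i _ ?_⟩, c', hc', hW i _ ?_⟩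
    · rw [dist_eq_norm]
      exact h1.trans (min_le_left _ _)
    · rw [dist_eq_norm]
      exact h2.trans (min_le_right _ _)
  refine ⟨E, N, hN, hEon, main, ?_⟩
  intro L _ _ _ σ hσ hNL x y hx hy
  by_cases hA : ∀ U ∈ nhds x, ∀ W ∈ nhds y, ∃ P Q : V K, D.On P Q ∧ (∃ c : L, c ≠ 0 ∧ c • (σ ∘ P) ∈ U) ∧
      (∃ c : L, c ≠ 0 ∧ c • (σ ∘ Q) ∈ W) ∧ ∀ e ∈ E, ¬ Same P Q e.1 e.2
  · -- limits of points outside `E`
    right; left
    ext f
    constructor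
    · rintro ⟨U, hU, W, hW, hf⟩
      obtain ⟨U', hU'U, hU'o, hxU'⟩ := mem_nhds_iff.mp hU
      obtain ⟨W', hW'W, hW'o, hyW'⟩ := mem_nhds_iff.mp hW
      obtain ⟨P, Q, hPQ, ⟨c, hc, hcU⟩, ⟨d, hd, hdW⟩, hPE⟩ := hA U' (hU'o.mem_nhds hxU') W' (hW'o.mem_nhds hyW')
      refine main 1 (fun _ => L) (fun _ => σ) (fun _ => hσ) (fun _ => hNL) P Q hPQ hPE
        (fun _ => (fun v => c • v) ⁻¹' U') (fun _ => (fun v => d • v) ⁻¹' W') ?_ f ?_
      · intro i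
        exact ⟨(hU'o.preimage (by fun_prop)).mem_nhds hcU, (hW'o.preimage (by fun_prop)).mem_nhds hdW⟩
      · intro P' Q' hPQ' h
        obtain ⟨⟨c', hc', h1⟩, d', hd', h2⟩ := h 0
        refine hf P' Q' hPQ' ⟨c * c', mul_ne_zero hc hc', hU'U ?_⟩ ⟨d * d', mul_ne_zero hd hd', hW'W ?_⟩
        · rw [mul_smul]; exact h1
        · rw [mul_smul]; exact h2
    · intro hf
      refine ⟨Set.univ, Filter.univ_mem, Set.univ, Filter.univ_mem, ?_⟩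
      intro P Q hPQ _ _ a b
      exact eval_ideal D hPQ hf a b
  · push Not at hA
    obtain ⟨U₀, hU₀, W₀, hW₀, h₀⟩ := hA
    obtain ⟨U₁, hU₁, W₁, hW₁, h₁⟩ := sep σ hx hy E fun e he => ⟨(hEon e he).1, (hEon e he).2.1⟩
    -- the rational points close to `(x, y)` are in `E`
    have key : ∀ P Q : V K, D.On P Q → (∃ c : L, c ≠ 0 ∧ c • (σ ∘ P) ∈ U₀ ∩ U₁) →
        (∃ c : L, c ≠ 0 ∧ c • (σ ∘ Q) ∈ W₀ ∩ W₁) →
        ∃ e ∈ E, Same P Q e.1 e.2 ∧ Same x y (σ ∘ e.1) (σ ∘ e.2) := by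
      rintro P Q hPQ ⟨c, hc, hcU⟩ ⟨d, hd, hdW⟩
      obtain ⟨e, he, hs⟩ := h₀ P Q hPQ ⟨c, hc, hcU.1⟩ ⟨d, hd, hdW.1⟩
      refine ⟨e, he, hs, ?_⟩
      obtain ⟨s, t, hs, ht, e1, e2⟩ := hs
      refine h₁ e he (c * σ s) (d * σ t) (mul_ne_zero hc (by simpa using hs)) (mul_ne_zero hd (by simpa using ht)) ?_ ?_
      · have : c • (σ ∘ P) = (c * σ s) • (σ ∘ e.1) := by
          rw [e1]
          funext i
          simp [mul_assoc]
        rw [← this]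
        exact hcU.2
      · have : d • (σ ∘ Q) = (d * σ t) • (σ ∘ e.2) := by
          rw [e2]
          funext i
          simp [mul_assoc]
        rw [← this]
        exact hdW.2
    by_cases hB : ∃ e ∈ E, Same x y (σ ∘ e.1) (σ ∘ e.2)
    · right; right
      obtain ⟨e, he, s, t, hs, ht, e1, e2⟩ := hB
      refine ⟨e, he, ⟨s, t, hs, ht, e1, e2⟩, ?_⟩
      ext f
      constructor
      · rintro ⟨U, hU, W, hW, hf⟩
        refine hf e.1 e.2 (hEon e he) ⟨s, hs, ?_⟩ ⟨t, ht, ?_⟩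
        · rw [← e1]; exact mem_of_mem_nhds hU
        · rw [← e2]; exact mem_of_mem_nhds hW
      · intro hf
        refine ⟨U₀ ∩ U₁, Filter.inter_mem hU₀ hU₁, W₀ ∩ W₁, Filter.inter_mem hW₀ hW₁, ?_⟩
        intro P Q hPQ hP hQ a b
        obtain ⟨e', he', ⟨s₁, t₁, hs₁, ht₁, rfl, rfl⟩, s', t', hs', ht', e1', e2'⟩ := key P Q hPQ hP hQ
        have on := hEon e he
        have on' := hEon e' he'
        obtain ⟨u, -, hu⟩ := same_of_same σ on'.1 on.1 ⟨s'⁻¹ * s, mul_ne_zero (inv_ne_zero hs') hs, by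
          rw [mul_smul, ← e1, e1', smul_smul, inv_mul_cancel₀ hs', one_smul]⟩
        obtain ⟨w, -, hw⟩ := same_of_same σ on'.2.1 on.2.1 ⟨t'⁻¹ * t, mul_ne_zero (inv_ne_zero ht') ht, by
          rw [mul_smul, ← e2, e2', smul_smul, inv_mul_cancel₀ ht', one_smul]⟩
        rw [hu, hw, smul_smul, smul_smul, smul_smul, smul_smul]
        exact hf _ _
    · left
      push Not at hB
      ext f
      simp only [Set.mem_univ, iff_true]
      refine ⟨U₀ ∩ U₁, Filter.inter_mem hU₀ hU₁, W₀ ∩ W₁, Filter.inter_mem hW₀ hW₁, ?_⟩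
      intro P Q hPQ hP hQ a b
      obtain ⟨e, he, -, h⟩ := key P Q hPQ hP hQ
      exact absurd h (hB e he)

end Pool.Agent.Q44.WK
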