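import Pool.Agent.Q44.WK.Stm

/-!
# Project WK: the second point of the fibre (S_step)
-/

set_option autoImplicit false

namespace Pool.Agent.Q44.WK.JStep

open Dat

theorem lin_eq {F : Type} [CommRing F] (D : Dat F) (x y : V F) :
    D.lin x y = D.lam x 0 * y 0 + D.lam x 1 * y 1 + D.lam x 2 * y 2 := by
  simp only [lin, lam, Fin.sum_univ_three]
  ring

theorem sym_comm {F : Type} [CommRing F] (D : Dat F) (x : V F) (k l : Fin 3) :
    D.sym x k l = D.sym x l k := by
  simp only [sym]
  refine Finset.sum_congr rfl fun i _ => Finset.sum_congr rfl fun j _ => ?_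
  ring

theorem quad_eq {F : Type} [CommRing F] (D : Dat F) (x y : V F) :
    2 * D.quad x y = ∑ k, ∑ l, D.sym x k l * y k * y l := by
  have h1 : D.quad x y = ∑ k, ∑ l, (∑ i, ∑ j, D.b i j k l * x i * x j) * y k * y l := by
    simp only [quad, Finset.sum_mul]
    calc (∑ i, ∑ j, ∑ k, ∑ l, D.b i j k l * x i * x j * y k * y l)
        = ∑ i, ∑ k, ∑ j, ∑ l, D.b i j k l * x i * x j * y k * y l :=
          Finset.sum_congr rfl fun i _ => Finset.sum_comm
      _ = ∑ k, ∑ i, ∑ j, ∑ l, D.b i j k l * x i * x j * y k * y l := Finset.sum_comm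
      _ = ∑ k, ∑ i, ∑ l, ∑ j, D.b i j k l * x i * x j * y k * y l :=
          Finset.sum_congr rfl fun k _ => Finset.sum_congr rfl fun i _ => Finset.sum_comm
      _ = ∑ k, ∑ l, ∑ i, ∑ j, D.b i j k l * x i * x j * y k * y l :=
          Finset.sum_congr rfl fun k _ => Finset.sum_comm
  have h2 : D.quad x y = ∑ k, ∑ l, (∑ i, ∑ j, D.b i j l k * x i * x j) * y k * y l := by
    rw [h1, Finset.sum_comm]
    refine Finset.sum_congr rfl fun k _ => Finset.sum_congr rfl fun l _ => ?_
    ring
  rw [two_mul]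
  nth_rewrite 1 [h1]
  rw [h2, ← Finset.sum_add_distrib]
  refine Finset.sum_congr rfl fun k _ => ?_
  rw [← Finset.sum_add_distrib]
  refine Finset.sum_congr rfl fun l _ => ?_
  have : D.sym x k l = (∑ i, ∑ j, D.b i j k l * x i * x j) + ∑ i, ∑ j, D.b i j l k * x i * x j := by
    simp only [sym, add_mul, Finset.sum_add_distrib]
  rw [this]; ring

theorem cr_cr {F : Type} [CommRing F] (L z : V F) (j k : Fin 3)
    (h : L 0 * z 0 + L 1 * z 1 + L 2 * z 2 = 0) :
    ∑ a, cr z j a * cr L a k = L j * z k := by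
  fin_cases j <;> fin_cases k <;> simp [cr, Fin.sum_univ_three] <;>
    first | ring1 | linear_combination (-1 : F) * h

theorem cr_dot {F : Type} [CommRing F] (z : V F) (j : Fin 3) : ∑ a, cr z j a * z a = 0 := by
  fin_cases j <;> simp [cr, Fin.sum_univ_three] <;> ring

theorem G_lam {F : Type} [CommRing F] (D : Dat F) (x : V F) (a : Fin 3) :
    ∑ b, D.G x a b * D.lam x b = 0 := by
  have h : ∀ l, ∑ b, D.lam x b * cr (D.lam x) b l = 0 := by
    intro l
    fin_cases l <;> simp [cr, Fin.sum_univ_three] <;> ring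
  simp only [G, Finset.sum_mul]
  rw [Finset.sum_comm]
  refine Finset.sum_eq_zero fun k _ => ?_
  rw [Finset.sum_comm]
  refine Finset.sum_eq_zero fun l _ => ?_
  have := h l
  calc (∑ b, cr (D.lam x) a k * D.sym x k l * cr (D.lam x) b l * D.lam x b)
      = cr (D.lam x) a k * D.sym x k l * ∑ b, D.lam x b * cr (D.lam x) b l := by
        rw [Finset.mul_sum]; refine Finset.sum_congr rfl fun b _ => ?_; ring
    _ = 0 := by rw [this, mul_zero]

theorem G_comm {F : Type} [CommRing F] (D : Dat F) (x : V F) (a b : Fin 3) :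
    D.G x a b = D.G x b a := by
  simp only [G]
  rw [Finset.sum_comm]
  refine Finset.sum_congr rfl fun k _ => Finset.sum_congr rfl fun l _ => ?_
  rw [sym_comm D x l k]; ring

theorem G_quad {F : Type} [CommRing F] (D : Dat F) (x z : V F) (j : Fin 3) (h : D.lin x z = 0) :
    ∑ a, ∑ b, cr z j a * cr z j b * D.G x a b = D.lam x j ^ 2 * (2 * D.quad x z) := by
  rw [lin_eq] at h
  have e : ∀ k, ∑ a, cr z j a * cr (D.lam x) a k = D.lam x j * z k := fun k => cr_cr _ _ _ _ h
  calc (∑ a, ∑ b, cr z j a * cr z j b * D.G x a b)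
      = ∑ k, ∑ l, (∑ a, cr z j a * cr (D.lam x) a k) * D.sym x k l *
          (∑ b, cr z j b * cr (D.lam x) b l) := by
        simp only [G, Fin.sum_univ_three]; ring
    _ = D.lam x j ^ 2 * (2 * D.quad x z) := by
        rw [quad_eq]
        simp only [e, Finset.mul_sum]
        refine Finset.sum_congr rfl fun k _ => Finset.sum_congr rfl fun l _ => ?_
        ring

theorem main (h : S_id) : S_step := by
  intro F _ h2 D x y hon hG
  obtain ⟨hx, hy, hl, hq⟩ := hon
  obtain ⟨i, hi⟩ : ∃ i, y i ≠ 0 := by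
    by_contra hc
    push Not at hc
    exact hy (funext hc)
  obtain ⟨a₀, b₀, hab⟩ := hG
  have hid := h F D x y hy hl hq i
  set y' : V F := fun b => 2 * y i * D.G x i b - D.G x i i * y b with hy'
  have hadj : ∀ a b, y a * y' b + y b * y' a = (2 * y i ^ 2) * D.G x a b := by
    intro a b
    simp only [hy']
    linear_combination (-2 : F) * hid a b
  have hc : (2 * y i ^ 2 : F) ≠ 0 := mul_ne_zero h2 (pow_ne_zero _ hi)
  have hy'0 : y' ≠ 0 := by
    intro h0
    have := hadj a₀ b₀
    rw [h0] at this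
    simp only [Pi.zero_apply, mul_zero, add_zero] at this
    exact (mul_ne_zero hc hab) this.symm
  have hl' : D.lin x y' = 0 := by
    have e1 := G_lam D x i
    rw [lin_eq] at hl ⊢
    rw [Fin.sum_univ_three] at e1
    simp only [hy']
    linear_combination (2 * y i) * e1 - D.G x i i * hl
  obtain ⟨j, hj⟩ : ∃ j, D.lam x j ≠ 0 := by
    by_contra hcon
    push Not at hcon
    apply hab
    have : D.lam x = 0 := funext hcon
    have hcr : ∀ a k, cr (D.lam x) a k = 0 := by
      intro a k
      rw [this]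
      fin_cases a <;> fin_cases k <;> simp [cr]
    simp [G, hcr]
  have hq' : D.quad x y' = 0 := by
    have e := G_quad D x y' j hl'
    have e2 : (2 * y i ^ 2) * (∑ a, ∑ b, cr y' j a * cr y' j b * D.G x a b) =
        2 * (∑ a, cr y' j a * y a) * (∑ b, cr y' j b * y' b) := by
      have : (2 * y i ^ 2) * (∑ a, ∑ b, cr y' j a * cr y' j b * D.G x a b) =
          ∑ a, ∑ b, cr y' j a * cr y' j b * (y a * y' b + y b * y' a) := by
        rw [Finset.mul_sum]
        refine Finset.sum_congr rfl fun a _ => ?_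
        rw [Finset.mul_sum]
        refine Finset.sum_congr rfl fun b _ => ?_
        rw [hadj a b]; ring
      rw [this]
      simp only [Fin.sum_univ_three]
      ring
    rw [cr_dot, mul_zero, e] at e2
    have h3 : (2 * y i ^ 2) * (D.lam x j ^ 2 * 2) ≠ 0 :=
      mul_ne_zero hc (mul_ne_zero (pow_ne_zero _ hj) h2)
    have h4 : ((2 * y i ^ 2) * (D.lam x j ^ 2 * 2)) * D.quad x y' = 0 := by
      rw [← e2]; ring
    exact (mul_eq_zero.mp h4).resolve_left h3
  refine ⟨y', ⟨hx, hy'0, hl', hq'⟩, ⟨2 * y i ^ 2, hc, hadj⟩, ⟨2 * y i ^ 2, hc, fun a b => ?_⟩⟩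
  rw [← hadj a b]; ring

end Pool.Agent.Q44.WK.JStep
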