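import Pool.Agent.Q44.WK.Stm

/-!
# Project WK: assembly of the main theorem
-/

set_option autoImplicit false

namespace Pool.Agent.Q44.WK

open MvPolynomial Height

theorem map_G {F E : Type} [CommRing F] [CommRing E] (σ : F →+* E) (D : Dat F) (x : V F) (a b : Fin 3) :
    (D.map σ).G (σ ∘ x) a b = σ (D.G x a b) := by
  have hl : ∀ j, (D.map σ).lam (σ ∘ x) j = σ (D.lam x j) := by
    intro j
    simp [Dat.lam, Dat.map]
  have hc : ∀ k l, Dat.cr ((D.map σ).lam (σ ∘ x)) k l = σ (Dat.cr (D.lam x) k l) := by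
    intro k l
    fin_cases k <;> fin_cases l <;> simp [Dat.cr, hl]
  simp only [Dat.G, hc, map_sum, map_mul]
  simp [Dat.sym, Dat.map]

theorem fin1_of_map {K : Type} [Field K] {F : Type} [Field F] (σ : K →+* F) (D : Dat K) (h : (D.map σ).Fin1) :
    D.Fin1 := by
  intro x hx
  have h0 : σ ∘ x ≠ 0 := by
    intro h0
    apply hx
    funext i
    have := congrFun h0 i
    simpa using this
  obtain ⟨a, b, hab⟩ := h _ h0
  rw [map_G] at hab
  exact ⟨a, b, fun h => hab (by rw [h, map_zero])⟩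

theorem alt_two_mul {F : Type} [CommRing F] (D : Dat F) (n : ℕ) : D.alt (2 * n) = D := by
  simp [Dat.alt]

theorem top (hex : S_ex) (hh : S_h) (hnc : S_nc) (hunb : S_unb) (hgrow : S_grow) (hgood : S_good)
    (hrec : S_rec) (hdens : S_dens) : S_top := by
  intro K _ _ D hp h1 h2
  have t2 : (2 : K) ≠ 0 := two_ne_zero
  have hF : D.Fin1 := fin1_of_map _ D h1
  have hF' : D.swap.Fin1 := fin1_of_map _ D.swap h2
  obtain ⟨c1, hc1⟩ := hh K D h1
  obtain ⟨c2, hc2⟩ := hh K D.swap h2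
  have hc : ∀ x y y' : V K, x ≠ 0 → y ≠ 0 → y' ≠ 0 → (D.Adj x y y' ∨ D.swap.Adj x y y') →
      4 * logHeight x ≤ logHeight y + logHeight y' + max c1 c2 := by
    intro x y y' hx hy hy' h
    rcases h with h | h
    · exact (hc1 x y y' hx hy hy' h).trans (by linarith [le_max_left c1 c2])
    · exact (hc2 x y y' hx hy hy' h).trans (by linarith [le_max_right c1 c2])
  obtain ⟨S, hS⟩ := hnc K (max c1 c2 / 2)
  obtain ⟨N, hN, hG⟩ := hgood K D h1 h2
  refine ⟨S ×ˢ S, N, hN, ?_⟩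
  intro κ _ L _ _ _ σ hσ x y hxy hE ε hε f hf
  have hbig : max c1 c2 / 2 < logHeight x ∨ max c1 c2 / 2 < logHeight y := by
    by_contra hcon
    push Not at hcon
    obtain ⟨s, hs, t, ht, e1⟩ := hS x hxy.1 hcon.1
    obtain ⟨s', hs', t', ht', e2⟩ := hS y hxy.2.1 hcon.2
    exact hE (s, s') (Finset.mem_product.mpr ⟨hs, hs'⟩) ⟨t, t', ht, ht', e1, e2⟩
  obtain ⟨z, z0, z1, hz⟩ := hex K t2 D hF hF' x y hxy
  have hun := hunb K D (max c1 c2) hc z hz (by rw [z0, z1]; exact hbig)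
  have hz0 : ∀ k, z k ≠ 0 := fun k => (hz k).1.1
  have hgr := hgrow (fun k => logHeight (z k)) (max c1 c2) (fun k => logHeight_nonneg _) (fun k => by
    refine hc (z (k + 1)) (z k) (z (k + 2)) (hz0 _) (hz0 _) (hz0 _) ?_
    have := (hz k).2
    unfold Dat.alt at this
    split_ifs at this
    · exact Or.inl this
    · exact Or.inr this) hun
  obtain ⟨m, hm, hr⟩ := hrec K κ L σ D (fun i => hG (L i) (σ i) (hσ i)) z hz ε hε
  refine hdens K D hp hF z hz hgr m hm f ?_
  intro j s t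
  refine hf (z (2 * m * j)) (z (2 * m * j + 1)) ?_ ?_ s t
  · have := (hz (2 * m * j)).1
    rwa [mul_assoc, alt_two_mul, ← mul_assoc] at this
  · intro i
    have := hr j i
    rw [z0, z1] at this
    exact this

end Pool.Agent.Q44.WK
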