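import Pool.Agent.Q151.WK.Ident
import Pool.Agent.Q44.WK.JStep
import Pool.Agent.Q150.WK.UN
import Pool.Agent.Q251.WK.NU
import Pool.Agent.Q241.WK.HH
import Pool.Agent.Q151.WK.Grow
import Pool.Agent.Q96.WK.UB
import Pool.Agent.Q241.WK.RO
import Pool.Agent.Q96.WK.GD
import Pool.Agent.Q31.WK.CL
import Pool.Agent.Q224.WK.RE
import Pool.Agent.Q149.WK.IN
import Pool.Agent.Q224.WK.AA
import Pool.Agent.Q224.WK.FA
import Pool.Agent.Q285.WK.FB
import Pool.Agent.Q65.WK.FC
import Pool.Agent.Q224.WK.DE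
import Pool.Agent.Q149.WK.CM
import Pool.Agent.Q44.WK.Top
import Pool.Agent.Q44.WK.Fin

/-!
# Project WK: everything together
-/

set_option autoImplicit false

namespace Pool.Agent.Q44.WK

theorem all : S_fin := by
  have id := Pool.Agent.Q151.WK.ident
  have step := Pool.Agent.Q44.WK.JStep.main id
  have form := Pool.Agent.Q150.WK.UN.form
  have ex := Pool.Agent.Q150.WK.UN.ex step
  have uni := Pool.Agent.Q150.WK.UN.uni
  have null := Pool.Agent.Q251.WK.NU.main
  have hh := Pool.Agent.Q241.WK.HH.main null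
  have nc := Pool.Agent.Q151.WK.nc
  have grow := Pool.Agent.Q151.WK.grow
  have unb := Pool.Agent.Q96.WK.UB.main nc uni
  have root := Pool.Agent.Q241.WK.RO.main
  have good := Pool.Agent.Q96.WK.GD.main null
  have close := Pool.Agent.Q31.WK.CL.main
  have rec' := Pool.Agent.Q224.WK.RE.main close
  have int := Pool.Agent.Q149.WK.IN.main id
  have aa := Pool.Agent.Q224.WK.AA.main int
  have f1 := Pool.Agent.Q224.WK.FA.f1 form
  have f2 := Pool.Agent.Q224.WK.FA.f2
  have f3 := Pool.Agent.Q285.WK.FB.main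
  have fld := Pool.Agent.Q65.WK.FC.main f1 f2 f3
  have cmp := Pool.Agent.Q149.WK.CM.main root fld
  have dens := Pool.Agent.Q224.WK.DE.main aa cmp
  exact fin (top ex hh nc unb grow good rec' dens)

end Pool.Agent.Q44.WK
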