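import Pool.Agent.Q44.WK.Def

/-!
# Project WK: statements

Mazur's question on the local Zariski closures of the rational points for the surfaces `X` in `P² x P²` given by
forms of bidegree (1,1) and (2,2) (K3 surfaces with two involutions, in general without a fibration by curves of
genus one), at all places outside a finite set. Notation: `Def.lean`.

Idea. `z 0, z 1, z 2, ...` is the chain of a rational point `(z 0, z 1)`. At the places of good reduction the
involutions are isometries, so that the rational points `(z (2 m j), z (2 m j + 1))`, `j = 0, 1, 2, ...`, are close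
to `(z 0, z 1)` for some `m > 0` (pigeon hole principle). By the inequality `h (z (k-1)) + h (z (k+1)) ≥ 4 h (z k) - c`
of heights, all rational points outside a finite set have chains with exponentially growing heights, and then no
curve in `X` contains the points `(z (2 m j), z (2 m j + 1))`: their first coordinates would satisfy an equation
`A = 0` of degree `α`, and the coordinates of `z (2 m (n + k))` would be related to those of `z (2 m n)` by equations
of degree at most `8 α` in the latter, with `8 α` independent of `k`.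
-/

set_option autoImplicit false

namespace Pool.Agent.Q44.WK

open MvPolynomial Height

/-- The polynomials `G a b` in the coordinates of the first plane. -/
noncomputable def Dat.GP {F : Type} [CommRing F] (D : Dat F) (a b : Fin 3) : MvPolynomial (Fin 3) F :=
  (D.map C).G X a b

/-- The polynomial `∑ m a * m b * G a b`. -/
noncomputable def Dat.gP {F : Type} [CommRing F] (D : Dat F) (m : V F) : MvPolynomial (Fin 3) F :=
  ∑ a, ∑ b, C (m a * m b) * D.GP a b

/-- The coordinates of `v` are, up to a common factor, in `E`. -/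
def DefBy {K Ω : Type} [Field K] [Field Ω] [Algebra K Ω] (E : IntermediateField K Ω) (v : V Ω) : Prop :=
  ∃ s : Ω, s ≠ 0 ∧ ∀ a, s * v a ∈ E

/-! ### Algebra of the involutions -/

/-- **S_id.** Over a field. Proof: `D.lin x y = ∑ j, lam j * y j`. For `m`, `m'` orthogonal to `y` the vector products
`lam × m`, `lam × m'` are multiples of `y`, because `(lam × m) × y = m (lam · y) - lam (m · y) = 0` and `y ≠ 0`. So
`∑ m_a m'_b G a b = (lam × m)ᵗ sym (lam × m') = t t' yᵗ sym y = 2 t t' D.quad x y = 0`. Take `m = y_i e_a - y_a e_i`,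
`m' = y_i e_b - y_b e_i`. -/
def S_id : Prop := ∀ (F : Type) [Field F] (D : Dat F) (x y : V F), y ≠ 0 → D.lin x y = 0 → D.quad x y = 0 →
  ∀ i a b : Fin 3, y i ^ 2 * D.G x a b - y i * y b * D.G x i a - y i * y a * D.G x i b + y a * y b * D.G x i i = 0

/-- **S_step.** The second point of the fibre. Proof: choose `i` with `y i ≠ 0` and `y' b = 2 y_i G i b - G i i y_b`; by
S_id `y_a y'_b + y_b y'_a = 2 y_i² G a b` (`Adj`, so `y' ≠ 0`, as `G x ≠ 0`); `lam · y' = 0` since
`∑_b G x a b * lam b = 0` (`lam × lam = 0`), and `quad x y' = 0`: take `m` orthogonal to `y'`, not a multiple of `lam`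
(`lam ≠ 0` as `G x ≠ 0`), then `lam × m ≠ 0` is a multiple of `y'` and `2 quad x (lam × m) = ∑ m_a m_b G a b =
const (m · y)(m · y') = 0`. -/
def S_step : Prop := ∀ (F : Type) [Field F], (2 : F) ≠ 0 → ∀ (D : Dat F) (x y : V F), D.On x y →
  (∃ a b, D.G x a b ≠ 0) → ∃ y', D.On x y' ∧ D.Adj x y y' ∧ D.Adj x y' y

/-- **S_form.** `2 y_i (c G i b) - (c G i i) y_b = 2 y_i (y_i w_b + y_b w_i) - 2 y_i w_i y_b = 2 y_i² w_b`. -/
def S_form : Prop := ∀ (F : Type) [Field F], (2 : F) ≠ 0 → ∀ (D : Dat F) (x y w : V F), D.Adj x y w →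
  ∀ i, y i ≠ 0 → ∃ c : F, c ≠ 0 ∧ ∀ b, c * w b = 2 * y i * D.G x i b - D.G x i i * y b

/-- **S_ex.** Existence of chains (recursion with S_step; `On` is symmetric under `swap`). -/
def S_ex : Prop := ∀ (F : Type) [Field F], (2 : F) ≠ 0 → ∀ (D : Dat F), D.Fin1 → D.swap.Fin1 → ∀ x y : V F, D.On x y →
  ∃ z : ℕ → V F, z 0 = x ∧ z 1 = y ∧ D.Chain z

/-- **S_uni.** The chain is determined by two neighbours up to scalars, in both directions. Proof: S_form, `Adj` is
symmetric in the last two arguments, homogeneity of `G` (degree 4), scalars; induction. `k` and `l` have the same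
parity, so that `alt` is the same. -/
def S_uni : Prop := ∀ (F : Type) [Field F], (2 : F) ≠ 0 → ∀ (D : Dat F) (z : ℕ → V F), D.Chain z →
  ∀ k l : ℕ, k % 2 = l % 2 → (∃ s : F, s ≠ 0 ∧ z k = s • z l) → (∃ s : F, s ≠ 0 ∧ z (k + 1) = s • z (l + 1)) →
  (∀ j, ∃ s : F, s ≠ 0 ∧ z (k + j) = s • z (l + j)) ∧ ∀ j, j ≤ k → j ≤ l → ∃ s : F, s ≠ 0 ∧ z (k - j) = s • z (l - j)

/-! ### Heights -/

/-- **S_null.** Nullstellensatz with coefficients in `K`, homogeneous parts. Proof: over the algebraic closure the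
forms `G a b` (of degree 4) have no common zero except `0`, so `X k ^ n` is in their ideal for some `n ≥ 4` (the
same for all `k`); linear algebra (the coefficients of the factors solve a system of linear equations over `K`,
solvable over the extension, so solvable over `K`; or choose a `K`-linear retraction of the algebraic closure onto
`K` and apply it to the coefficients); take homogeneous components of degree `n - 4 = M`. -/
def S_null : Prop := ∀ (K : Type) [Field K] (D : Dat K), (D.map (algebraMap K (AlgebraicClosure K))).Fin1 →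
  ∃ (M : ℕ) (q : Fin 3 × (Fin 3 × Fin 3) → MvPolynomial (Fin 3) K), (∀ a, (q a).IsHomogeneous M) ∧
    ∀ k : Fin 3, ∑ j : Fin 3 × Fin 3, q (k, j) * D.GP j.1 j.2 = X k ^ (M + 4)

/-- **S_h.** Proof: `h y + h y'` is the height of the tuple of all `y a * y' b` (`Height.logHeight_fun_mul_eq`), the tuple
of all `c * G x a b` is its image under a linear map (`Height.logHeight_linearMap_apply_le`), scalars do not
matter, and `4 h x - C ≤` height of the tuple of the `G x a b` by `Height.logHeight_eval_ge'` and S_null. -/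
def S_h : Prop := ∀ (K : Type) [Field K] [NumberField K] (D : Dat K),
  (D.map (algebraMap K (AlgebraicClosure K))).Fin1 →
  ∃ c : ℝ, ∀ x y y' : V K, x ≠ 0 → y ≠ 0 → y' ≠ 0 → D.Adj x y y' →
    4 * logHeight x ≤ logHeight y + logHeight y' + c

/-- **S_nc.** Northcott for the projective plane (from Mathlib's Northcott property of `mulHeight₁` on number fields;
`mulHeight₁ (x a / x b) ≤ mulHeight x`). -/
def S_nc : Prop := ∀ (K : Type) [Field K] [NumberField K] (B : ℝ), ∃ S : Finset (V K), ∀ x : V K, x ≠ 0 →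
  logHeight x ≤ B → ∃ s ∈ S, ∃ t : K, t ≠ 0 ∧ x = t • s

/-- **S_unb.** Proof: if the heights of the chain are bounded then by S_nc two pairs of neighbours `(z k, z (k+1))`,
`(z l, z (l+1))`, `k < l` of the same parity, are proportional, so by S_uni the chain is periodic up to scalars
with period `n = l - k > 0`, the heights `u k` have a maximum `M = u k` with `k ≥ 1`, and
`4 M ≤ u (k-1) + u (k+1) + c ≤ 2 M + c`. -/
def S_unb : Prop := ∀ (K : Type) [Field K] [NumberField K] (D : Dat K) (c : ℝ),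
  (∀ x y y' : V K, x ≠ 0 → y ≠ 0 → y' ≠ 0 → (D.Adj x y y' ∨ D.swap.Adj x y y') →
    4 * logHeight x ≤ logHeight y + logHeight y' + c) →
  ∀ z, D.Chain z → (c / 2 < logHeight (z 0) ∨ c / 2 < logHeight (z 1)) → ∀ B : ℝ, ∃ k, B < logHeight (z k)

/-- **S_grow.** Real numbers. Proof: let `k` be the first index with `u k > B = max (|c|) 1 (u 0)`; then
`u (k+1) ≥ 4 u k - u (k-1) - c ≥ 2 u k`, and so on. -/
def S_grow : Prop := ∀ (u : ℕ → ℝ) (c : ℝ), (∀ k, 0 ≤ u k) → (∀ k, 4 * u (k + 1) ≤ u k + u (k + 2) + c) →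
  (∀ B : ℝ, ∃ k, B < u k) → ∃ k₀, ∀ k, k₀ ≤ k → 2 * u k ≤ u (k + 1) ∧ 1 ≤ u k

/-- **S_root.** Proof: let `W j = (1, w, ..., w ^ j)` (height `j * logHeight₁ w`) and `b e = (c e).eval u`. If `E = 0` the
hypotheses are contradictory. The tuple `b E • W E` is the image of the tuple of all `b e * w ^ i` (`e ≤ E`,
`i ≤ E - 1`) under a fixed linear map (`b E * w ^ E = - ∑_{e < E} b e * w ^ e`), so
`E h₁ w = h (W E) ≤ h b + h (W (E-1)) + const = h b + (E-1) h₁ w + const`, and `h b ≤ d h₁ u + const` since `b` is the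
image of `(1, u, ..., u ^ d)` under a linear map. -/
def S_root : Prop := ∀ (K : Type) [Field K] [NumberField K] (d E : ℕ) (c : Fin (E + 1) → Polynomial K),
  (∀ e, (c e).natDegree ≤ d) → ∃ C : ℝ, ∀ u w : K, (c (Fin.last E)).eval u ≠ 0 →
    ∑ e, (c e).eval u * w ^ (e : ℕ) = 0 → logHeight₁ w ≤ d * logHeight₁ u + C

/-! ### Places of good reduction -/

/-- **S_good.** Proof: take `M`, `q` of S_null for `D` and for `D.swap`, and `N = 2 * N'` where `N' ≠ 0` is an integer such
that `N' * x` is integral over `ℤ` for all coefficients `x` of `D` and of the polynomials `q`. If `‖(N : L)‖ = 1`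
then `‖2‖ = 1` (both factors have norm at most 1) and the coefficients have norm at most 1 (integral elements have
norm at most one for a nonarchimedean norm). For `‖x‖ = 1` the number `x k` of norm 1 has
`x k ^ (M + 4) = ∑ q G`, so that some `G x a b` has norm at least 1. -/
def S_good : Prop := ∀ (K : Type) [Field K] [NumberField K] (D : Dat K),
  (D.map (algebraMap K (AlgebraicClosure K))).Fin1 → (D.swap.map (algebraMap K (AlgebraicClosure K))).Fin1 →
  ∃ N : ℕ, N ≠ 0 ∧ ∀ (L : Type) [NontriviallyNormedField L] [IsUltrametricDist L] (σ : K →+* L),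
    ‖(N : L)‖ = 1 → Good (D.map σ)

/-- **S_close.** The second point of the fibre depends continuously on the point: multiply `x'`, `y'` by the units of
`Near` (`G` is homogeneous, `Adj` stays valid), so that `‖x - x'‖ ≤ ε`, `‖y - y'‖ ≤ ε`. Choose `i` with `‖y i‖ = 1`; then
`‖y' i‖ = 1`. By the computation of S_form `w` and `w'` are the multiples of `v b = 2 y_i G x i b - G x i i y_b`,
`v' b = ...` by `c / (2 y_i²)` and `c' / (2 y'_i²)`; these vectors have polynomial entries with integral coefficients, so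
`‖v - v'‖ ≤ ε`; and `‖v‖ = ‖v'‖ = 1`: in fact `‖c‖ = 1`, as `max ‖G x a b‖ = 1` and
`max ‖y_a w_b + y_b w_a‖ = 1` for vectors of norm 1 (`‖2‖ = 1`; Gauss lemma: let `i` be the first index with
`‖y_i‖ = 1` and `j` the first one with `‖w_j‖ = 1`). -/
def S_close : Prop := ∀ (L : Type) [NormedField L] [IsUltrametricDist L] (D : Dat L), Good D →
  ∀ ε : ℝ, 0 < ε → ε < 1 → ∀ x x' y y' w w' : V L, ‖x‖ = 1 → ‖x'‖ = 1 → ‖y‖ = 1 → ‖y'‖ = 1 → ‖w‖ = 1 → ‖w'‖ = 1 →
  D.Adj x y w → D.Adj x' y' w' → Near ε x x' → Near ε y y' → Near ε w w'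

/-- **S_rec.** Proof: let `u i k` be a multiple of `σ i ∘ z k` of norm one. By compactness (bounded sequences in a proper
space have convergent subsequences) there are `m₁ < m₂` with `‖u i (2 m₁) - u i (2 m₂)‖ ≤ ε'` and
`‖u i (2 m₁ + 1) - u i (2 m₂ + 1)‖ ≤ ε'` for all `i`. By S_close (for `D` and `D.swap`, `Adj` is symmetric in the last two
arguments) one can go down `2 m₁` steps: with `m = m₂ - m₁`, `Near ε' (u i (2 m)) (u i 0)`,
`Near ε' (u i (2 m + 1)) (u i 1)`, and up: `Near ε' (u i (2 m (j + 1))) (u i (2 m j))`, ... `Near` is transitive. -/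
def S_rec : Prop := ∀ (K : Type) [Field K] (κ : Type) [Fintype κ] (L : κ → Type)
  [∀ i, NontriviallyNormedField (L i)] [∀ i, IsUltrametricDist (L i)] [∀ i, ProperSpace (L i)]
  (σ : ∀ i, K →+* L i) (D : Dat K), (∀ i, Good (D.map (σ i))) → ∀ z, D.Chain z → ∀ ε : ℝ, 0 < ε →
  ∃ m : ℕ, 0 < m ∧ ∀ (j : ℕ) (i : κ),
    (∃ c : L i, c ≠ 0 ∧ ‖c • (σ i ∘ z (2 * m * j)) - σ i ∘ z 0‖ ≤ ε) ∧
    ∃ c : L i, c ≠ 0 ∧ ‖c • (σ i ∘ z (2 * m * j + 1)) - σ i ∘ z 1‖ ≤ ε

/-! ### Density -/

/-- **S_int.** Let `R = K[x, y] / D.ideal`, a domain; `ℓ = ∑ m a * y a`, `g = gP m`. In the fraction field of `R` the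
argument of S_id for `μ = ℓ e_a - y_a m` (orthogonal to `y`) gives
`g y_a² - 2 ℓ (∑_b m_b G a b) y_a + ℓ² G a a = 0` (`y ≠ 0` in `R` because of the point `(x₀, y₀)`). So `g y_a` is
integral over the image of `K[x, t]`, `t ↦ ℓ`, hence so is `g ^ N * f` for large `N`. It is not zero, so there is a nonzero
polynomial `s(x, t)` with `s(x, ℓ)` in the ideal generated by `f` and `D.ideal`
(`Ideal.exists_coeff_ne_zero_mem_comap_of_root_mem`, `Ideal.comap_ne_bot_of_integral_mem` or similar). At a point with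
`f(s x, t y) = 0` for all `s`, `t` and `ℓ(y) ≠ 0` we get `s(s' x, t') = 0` for all `s'` and all `t' ≠ 0`; so all
coefficients of `s(s' x, t)` as a polynomial in `t` vanish, and all homogeneous components of these at `x`.
Let `A` be one such component which is not the zero polynomial. -/
def S_int : Prop := ∀ (K : Type) [Field K] [CharZero K] (D : Dat K), D.ideal.IsPrime →
  ∀ (x₀ y₀ : V K), D.On x₀ y₀ → ∀ f : MvPolynomial (Fin 3 ⊕ Fin 3) K, f ∉ D.ideal → ∀ m : V K,
  rename Sum.inl (D.gP m) ∉ D.ideal →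
  ∃ (α : ℕ) (A : MvPolynomial (Fin 3) K), A.IsHomogeneous α ∧ A ≠ 0 ∧ ∀ x y : V K, D.On x y →
    (∀ s t : K, eval (Sum.elim (s • x) (t • y)) f = 0) → ∑ a, m a * y a ≠ 0 → eval x A = 0

/-- **S_A.** Proof: choose linearly independent `m₁`, `m₂`, `m₃` with `∑ m_a m_b G x₀ a b ≠ 0` (`K` is infinite); then
`gP m_i ∉ D.ideal` (value at `(x₀, y₀)`); take the product of the three polynomials `A` of S_int; for each `y ≠ 0` one of
the three sums `∑ m_i a * y a` is not zero. -/
def S_A : Prop := ∀ (K : Type) [Field K] [CharZero K] (D : Dat K), D.ideal.IsPrime →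
  ∀ (x₀ y₀ : V K), D.On x₀ y₀ → (∃ a b, D.G x₀ a b ≠ 0) →
  ∀ f : MvPolynomial (Fin 3 ⊕ Fin 3) K, f ∉ D.ideal →
  ∃ (α : ℕ) (A : MvPolynomial (Fin 3) K), A.IsHomogeneous α ∧ A ≠ 0 ∧ ∀ x y : V K, D.On x y →
    (∀ s t : K, eval (Sum.elim (s • x) (t • y)) f = 0) → eval x A = 0

/-- **S_f1.** Going back along a chain does not need larger fields (S_form, `Adj` symmetric, `G` homogeneous). -/
def S_f1 : Prop := ∀ (K Ω : Type) [Field K] [CharZero K] [Field Ω] [Algebra K Ω] (D : Dat K) (ζ : ℕ → V Ω),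
  (D.map (algebraMap K Ω)).Chain ζ → ∀ (E : IntermediateField K Ω) (k : ℕ), DefBy E (ζ k) → DefBy E (ζ (k + 1)) →
  DefBy E (ζ 0)

/-- **S_f2.** Proof: choose `m : V K` with `∑ m a * y a ≠ 0` and `∑ m a * y' a ≠ 0` (`K` is infinite) and let
`r a = y a / (∑ m b * y b)`, a root of `((m·y) T - y_a) ((m·y') T - y'_a)`, whose coefficients are
`c/2 * ∑ m_a m_b G a b`, `- c ∑_b m_b G a b`, `c/2 * G a a`, i.e. up to a common factor in `E` (multiply `x` by the factor of
`DefBy`, `G` is homogeneous). -/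
def S_f2 : Prop := ∀ (K Ω : Type) [Field K] [CharZero K] [Field Ω] [Algebra K Ω] (D : Dat K) (x y y' : V Ω),
  y ≠ 0 → y' ≠ 0 → (D.map (algebraMap K Ω)).Adj x y y' → ∀ (E : IntermediateField K Ω), DefBy E x →
  ∃ (r : V Ω) (s : Ω), s ≠ 0 ∧ r = s • y ∧ ∀ a, ∃ P : Polynomial E, P.Monic ∧ P.natDegree = 2 ∧ Polynomial.aeval (r a) P = 0

/-- **S_f3.** Proof: dividing by `v d ^ α`, `A(v / v d) = 0`. As a polynomial in the third variable `c'` with the values `1`
for `X d` and `w` for `X c` it is not zero, because `A ≠ 0` is homogeneous and `w` is transcendental. -/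
def S_f3 : Prop := ∀ (K Ω : Type) [Field K] [CharZero K] [Field Ω] [Algebra K Ω] (α : ℕ)
  (A : MvPolynomial (Fin 3) K), A.IsHomogeneous α → A ≠ 0 → ∀ (v : V Ω), aeval v A = 0 →
  ∀ c d c' : Fin 3, v d ≠ 0 → c ≠ d → c' ≠ c → c' ≠ d → Transcendental K (v c / v d) →
  ∃ P : Polynomial (IntermediateField.adjoin K {v c / v d}), P ≠ 0 ∧ P.natDegree ≤ α ∧
    Polynomial.aeval (v c' / v d) P = 0

/-- **S_fld.** Proof: if `w = ζ k c / ζ k d` is algebraic over `K`, take `p 0 = minpoly K w` and `p i = 0` for `i > 0`. Otherwise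
`c ≠ d`; let `c'` be the third index. By S_f3 the field `E = K(w, ζ k c' / ζ k d)` has degree at most `α` over `K(w)`, and
`DefBy E (ζ k)`. By S_f2 for the fibre over `ζ k` (`y = ζ (k+1)`, and `y' = ζ (k-1)` if `k > 0`; if `k = 0` then
`ζ 0 a / ζ 0 b` is in `E` anyway) there are multiples `r a` of `ζ (k+1) a` of degree at most 2 over `E`; let
`E' = E(r 0, r 1, r 2)`, `[E' : K(w)] ≤ 8 α`. By S_f1 `DefBy E' (ζ 0)`, so `u = ζ 0 a / ζ 0 b ∈ E'`. The minimal polynomial of
`u` over `K(w)` has degree at most `8 α`; clear the denominators of its coefficients (elements of `K(w)` are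
quotients of polynomials in `w`). `k` is even. -/
def S_fld : Prop := ∀ (K Ω : Type) [Field K] [CharZero K] [Field Ω] [Algebra K Ω] (D : Dat K) (ζ : ℕ → V Ω),
  (D.map (algebraMap K Ω)).Chain ζ → ∀ (α : ℕ) (A : MvPolynomial (Fin 3) K), A.IsHomogeneous α → A ≠ 0 →
  ∀ k : ℕ, k % 2 = 0 → aeval (ζ k) A = 0 → ∀ a b c d : Fin 3, ζ 0 b ≠ 0 → ζ k d ≠ 0 →
  ∃ p : Fin (8 * α + 1) → Polynomial K, p ≠ 0 ∧
    ∑ i, Polynomial.aeval (ζ k c / ζ k d) (p i) * (ζ 0 a / ζ 0 b) ^ (i : ℕ) = 0

/-- **S_cmp.** Proof. Let `Ω` be the ultrapower `(Filter.hyperfilter ℕ : Filter ℕ).Germ K` (a field), `ζ k a` the germ of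
`n ↦ z (2 m n + k) a`: a chain over `Ω` (the parities agree; `Germ` versions of the polynomial identities). Choose `b` with
`ζ 0 b ≠ 0`. One of the germs `u = ζ 0 a / ζ 0 b` is transcendental over `K`: an algebraic germ takes finitely many values on
a set of the ultrafilter (the roots of a polynomial), so if all were algebraic, the height of `z (2 m n)` would be
bounded on a set of the ultrafilter. Let `k` be given, `d` with `ζ (2 m k) d ≠ 0`. For every `c` S_fld gives `p`; as a
polynomial in `w = ζ (2 m k) c / ζ (2 m k) d` the relation has the coefficients `c_e = ∑_i coeff (p i) e * X ^ i`, not all zero, of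
degree at most `8 α`; take `E` the largest index with `c_E ≠ 0`, then `c_E(u) ≠ 0` as `u` is transcendental. By S_root
`logHeight₁ w_n ≤ 8 α logHeight₁ u_n + C` for all `n` in a set of the ultrafilter (so infinitely many `n`),
`logHeight₁ u_n ≤ logHeight (z (2 m n))`, and `logHeight (z (2 m (n + k))) ≤ ∑_{c ≠ d} logHeight₁ (w_c)_n`. -/
def S_cmp : Prop := ∀ (K : Type) [Field K] [NumberField K] (D : Dat K) (z : ℕ → V K), D.Chain z →
  ∀ (α : ℕ) (A : MvPolynomial (Fin 3) K), A.IsHomogeneous α → A ≠ 0 → ∀ m : ℕ, 0 < m →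
  (∀ j, eval (z (2 * m * j)) A = 0) →
  Filter.Tendsto (fun j : ℕ => logHeight (z (2 * m * j))) Filter.atTop Filter.atTop →
  ∀ k : ℕ, ∃ C : ℝ, ∃ᶠ n in Filter.atTop,
    logHeight (z (2 * m * (n + k))) ≤ 16 * α * logHeight (z (2 * m * n)) + C

/-- **S_dens.** Proof: suppose `f ∉ D.ideal` and take `A` of S_A (the point `(z 0, z 1)`; `G (z 0) ≠ 0` by `hF`), so
`A (z (2 m j)) = 0`. By `hg` the heights `u k` satisfy `u (2 m (n + k)) ≥ 2 ^ (2 m k) * u (2 m n)` for large `n` and tend to infinity;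
choose `k` with `2 ^ (2 m k) > 16 α` and compare with S_cmp. -/
def S_dens : Prop := ∀ (K : Type) [Field K] [NumberField K] (D : Dat K), D.ideal.IsPrime → D.Fin1 → ∀ z, D.Chain z →
  (∃ k₀, ∀ k, k₀ ≤ k → 2 * logHeight (z k) ≤ logHeight (z (k + 1)) ∧ 1 ≤ logHeight (z k)) → ∀ m : ℕ, 0 < m →
  ∀ f : MvPolynomial (Fin 3 ⊕ Fin 3) K,
    (∀ (j : ℕ) (s t : K), eval (Sum.elim (s • z (2 * m * j)) (t • z (2 * m * j + 1))) f = 0) → f ∈ D.ideal

/-! ### The hypothesis and the assembly -/

/-- The fibres of the first projection are finite (over the field `F`): the linear form `lin x` is not zero, and the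
quadratic form `quad x` is not zero on the line `lin x = 0`. -/
def Dat.Fibres {F : Type} [CommRing F] (D : Dat F) : Prop :=
  ∀ x : V F, x ≠ 0 → (∃ y, D.lin x y ≠ 0) ∧ ∃ y, D.lin x y = 0 ∧ D.quad x y ≠ 0

/-- **S_fib.** Proof: let `lin x y = 0` and `quad x y ≠ 0`. Since `lam ≠ 0` is orthogonal to `y`, `y = lam × m` for some `m`, and
`∑ m_a m_b G x a b = 2 quad x y ≠ 0`. -/
def S_fib : Prop := ∀ (F : Type) [Field F], (2 : F) ≠ 0 → ∀ D : Dat F, D.Fibres → D.Fin1

/-- **S_top.** The main theorem (the local ideals at the points outside a finite set are the ideal of the surface). -/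
def S_top : Prop := ∀ (K : Type) [Field K] [NumberField K] (D : Dat K), D.ideal.IsPrime →
  (D.map (algebraMap K (AlgebraicClosure K))).Fin1 → (D.swap.map (algebraMap K (AlgebraicClosure K))).Fin1 →
  ∃ (E : Finset (V K × V K)) (N : ℕ), N ≠ 0 ∧ ∀ (κ : Type) [Fintype κ] (L : κ → Type)
    [∀ i, NontriviallyNormedField (L i)] [∀ i, IsUltrametricDist (L i)] [∀ i, ProperSpace (L i)]
    (σ : ∀ i, K →+* L i), (∀ i, ‖(N : L i)‖ = 1) → ∀ x y : V K, D.On x y →
    (∀ e ∈ E, ¬ ∃ s t : K, s ≠ 0 ∧ t ≠ 0 ∧ x = s • e.1 ∧ y = t • e.2) →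
    ∀ ε : ℝ, 0 < ε → ∀ f : MvPolynomial (Fin 3 ⊕ Fin 3) K,
      (∀ X Y : V K, D.On X Y → (∀ i, (∃ c : L i, c ≠ 0 ∧ ‖c • (σ i ∘ X) - σ i ∘ x‖ ≤ ε) ∧
          ∃ c : L i, c ≠ 0 ∧ ‖c • (σ i ∘ Y) - σ i ∘ y‖ ≤ ε) →
        ∀ a b : K, eval (Sum.elim (a • X) (b • Y)) f = 0) → f ∈ D.ideal

end Pool.Agent.Q44.WK
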