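import Pool.Agent.Q44.WK.Fib
import Pool.Agent.W279.Tri.LocComp

/-!
# Project WK: from the main theorem to the local Zariski closures
-/

set_option autoImplicit false

namespace Pool.Agent.Q44.WK

open MvPolynomial

/-- `(x, y)` and `(X, Y)` define the same point of the product of two projective planes. -/
def Same {F : Type} [Field F] (x y X Y : V F) : Prop := ∃ s t : F, s ≠ 0 ∧ t ≠ 0 ∧ x = s • X ∧ y = t • Y

/-- The ideal of the local Zariski closure at the point `(x, y)`, over a field `L` containing `K`, of the set of the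
`K`-points of the surface: the polynomials which vanish at (all scalings of) the `K`-points in a neighbourhood. -/
def Dat.closureIdeal {K L : Type} [Field K] [NontriviallyNormedField L] (D : Dat K) (σ : K →+* L) (x y : V L) :
    Set (MvPolynomial (Fin 3 ⊕ Fin 3) K) :=
  {f | ∃ U ∈ nhds x, ∃ W ∈ nhds y, ∀ P Q : V K, D.On P Q → (∃ c : L, c ≠ 0 ∧ c • (σ ∘ P) ∈ U) →
    (∃ c : L, c ≠ 0 ∧ c • (σ ∘ Q) ∈ W) → ∀ a b : K, eval (Sum.elim (a • P) (b • Q)) f = 0}

/-- The ideal of a point. -/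
def pointIdeal {K : Type} [Field K] (X Y : V K) : Set (MvPolynomial (Fin 3 ⊕ Fin 3) K) :=
  {f | ∀ a b : K, eval (Sum.elim (a • X) (b • Y)) f = 0}

theorem eval_linP {K : Type} [Field K] (D : Dat K) (x y : V K) :
    eval (Sum.elim x y) D.linP = D.lin x y := by
  simp [Dat.linP, Dat.lin]

theorem eval_quadP {K : Type} [Field K] (D : Dat K) (x y : V K) :
    eval (Sum.elim x y) D.quadP = D.quad x y := by
  simp [Dat.quadP, Dat.quad]

theorem lin_smul {K : Type} [Field K] (D : Dat K) (x y : V K) (a b : K) :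
    D.lin (a • x) (b • y) = a * b * D.lin x y := by
  simp only [Dat.lin, Finset.mul_sum]
  refine Finset.sum_congr rfl fun i _ => Finset.sum_congr rfl fun j _ => ?_
  simp only [Pi.smul_apply, smul_eq_mul]
  ring

theorem quad_smul {K : Type} [Field K] (D : Dat K) (x y : V K) (a b : K) :
    D.quad (a • x) (b • y) = a ^ 2 * b ^ 2 * D.quad x y := by
  simp only [Dat.quad, Finset.mul_sum]
  refine Finset.sum_congr rfl fun i _ => Finset.sum_congr rfl fun j _ =>
    Finset.sum_congr rfl fun k _ => Finset.sum_congr rfl fun l _ => ?_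
  simp only [Pi.smul_apply, smul_eq_mul]
  ring

/-- the elements of the ideal vanish on the surface -/
theorem eval_ideal {K : Type} [Field K] (D : Dat K) {x y : V K} (h : D.On x y)
    {f : MvPolynomial (Fin 3 ⊕ Fin 3) K} (hf : f ∈ D.ideal) (a b : K) :
    eval (Sum.elim (a • x) (b • y)) f = 0 := by
  obtain ⟨n, hn⟩ := hf
  have h1 : Ideal.span {D.linP, D.quadP} ≤ RingHom.ker (eval (Sum.elim (a • x) (b • y))) := by
    rw [Ideal.span_le]
    rintro g (rfl | rfl)
    · simp only [SetLike.mem_coe, RingHom.mem_ker]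
      rw [eval_linP, lin_smul, h.2.2.1, mul_zero]
    · simp only [SetLike.mem_coe, RingHom.mem_ker]
      rw [eval_quadP, quad_smul, h.2.2.2, mul_zero]
  have h2 := h1 hn
  rw [RingHom.mem_ker, map_pow] at h2
  exact IsReduced.eq_zero _ ⟨n, h2⟩

/-- two vectors are parallel -/
def Par {F : Type} [Field F] (v w : V F) : Prop := ∀ i j, v i * w j = v j * w i

theorem par_iff {F : Type} [Field F] {v w : V F} (hv : v ≠ 0) (hw : w ≠ 0) :
    Par v w ↔ ∃ s : F, s ≠ 0 ∧ v = s • w := by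
  constructor
  · intro h
    obtain ⟨j, hj⟩ := Function.ne_iff.mp hw
    simp only [Pi.zero_apply] at hj
    have e : v = (v j / w j) • w := by
      funext i
      simp only [Pi.smul_apply, smul_eq_mul]
      field_simp
      exact h i j
    refine ⟨v j / w j, ?_, e⟩
    intro h0
    rw [h0, zero_smul] at e
    exact hv e
  · rintro ⟨s, -, rfl⟩ i j
    simp only [Pi.smul_apply, smul_eq_mul]
    ring

theorem comp_ne {K L : Type} [Field K] [Field L] (σ : K →+* L) {x : V K} (hx : x ≠ 0) : (σ ∘ x : V L) ≠ 0 := by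
  intro h
  apply hx
  funext i
  have := congrFun h i
  simpa using this

theorem isOpen_not_par {L : Type} [NontriviallyNormedField L] (w : V L) : IsOpen {v : V L | ¬ Par v w} := by
  have : {v : V L | ¬ Par v w} = (⋂ i, ⋂ j, {v : V L | v i * w j = v j * w i})ᶜ := by
    ext v
    simp [Par]
  rw [this, isOpen_compl_iff]
  refine isClosed_iInter fun i => isClosed_iInter fun j => ?_
  exact isClosed_eq (by fun_prop) (by fun_prop)

theorem sep {K L : Type} [Field K] [NontriviallyNormedField L] (σ : K →+* L) {x y : V L} (hx : x ≠ 0)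
    (hy : y ≠ 0) (E : Finset (V K × V K)) (hE : ∀ e ∈ E, e.1 ≠ 0 ∧ e.2 ≠ 0) :
    ∃ U ∈ nhds x, ∃ W ∈ nhds y, ∀ e ∈ E, ∀ s t : L, s ≠ 0 → t ≠ 0 → s • (σ ∘ e.1) ∈ U → t • (σ ∘ e.2) ∈ W →
      Same x y (σ ∘ e.1) (σ ∘ e.2) := by
  classical
  induction E using Finset.induction_on with
  | empty => exact ⟨Set.univ, Filter.univ_mem, Set.univ, Filter.univ_mem, by simp⟩
  | insert e E _ ih =>
    obtain ⟨U, hU, W, hW, h⟩ := ih fun e he => hE e (Finset.mem_insert_of_mem he)
    have he := hE e (Finset.mem_insert_self _ _)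
    have q1 : ∀ s : L, s ≠ 0 → Par (s • (σ ∘ e.1)) (σ ∘ e.1) := fun s hs =>
      (par_iff (smul_ne_zero hs (comp_ne σ he.1)) (comp_ne σ he.1)).mpr ⟨s, hs, rfl⟩
    have q2 : ∀ s : L, s ≠ 0 → Par (s • (σ ∘ e.2)) (σ ∘ e.2) := fun s hs =>
      (par_iff (smul_ne_zero hs (comp_ne σ he.2)) (comp_ne σ he.2)).mpr ⟨s, hs, rfl⟩
    by_cases h1 : Par x (σ ∘ e.1)
    · by_cases h2 : Par y (σ ∘ e.2)
      · refine ⟨U, hU, W, hW, ?_⟩
        intro e' he' s t hs ht hsU htW
        rcases Finset.mem_insert.mp he' with rfl | he'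
        · obtain ⟨s', hs', e1⟩ := (par_iff hx (comp_ne σ he.1)).mp h1
          obtain ⟨t', ht', e2⟩ := (par_iff hy (comp_ne σ he.2)).mp h2
          exact ⟨s', t', hs', ht', e1, e2⟩
        · exact h e' he' s t hs ht hsU htW
      · refine ⟨U, hU, W ∩ {v | ¬ Par v (σ ∘ e.2)}, Filter.inter_mem hW ((isOpen_not_par _).mem_nhds h2), ?_⟩
        intro e' he' s t hs ht hsU htW
        rcases Finset.mem_insert.mp he' with rfl | he'
        · exact absurd (q2 t ht) htW.2
        · exact h e' he' s t hs ht hsU htW.1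
    · refine ⟨U ∩ {v | ¬ Par v (σ ∘ e.1)}, Filter.inter_mem hU ((isOpen_not_par _).mem_nhds h1), W, hW, ?_⟩
      intro e' he' s t hs ht hsU htW
      rcases Finset.mem_insert.mp he' with rfl | he'
      · exact absurd (q1 s hs) hsU.2
      · exact h e' he' s t hs ht hsU.1 htW

/-- points of `X(K)` which become equal over `L` are equal -/
theorem same_of_same {K L : Type} [Field K] [Field L] (σ : K →+* L) {v w : V K} (hv : v ≠ 0) (hw : w ≠ 0)
    (h : ∃ s : L, s ≠ 0 ∧ (σ ∘ v : V L) = s • (σ ∘ w)) : ∃ s : K, s ≠ 0 ∧ v = s • w := by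
  have h1 := (par_iff (comp_ne σ hv) (comp_ne σ hw)).mpr h
  refine (par_iff hv hw).mp fun i j => ?_
  have := h1 i j
  simp only [Function.comp_apply] at this
  rw [← map_mul, ← map_mul] at this
  exact σ.injective this

theorem exists_ball {κ : Type} [Fintype κ] (M : κ → Type) [∀ i, PseudoMetricSpace (M i)]
    (a : ∀ i, M i) (U : ∀ i, Set (M i)) (hU : ∀ i, U i ∈ nhds (a i)) :
    ∃ ε : ℝ, 0 < ε ∧ ∀ i, ∀ z, dist z (a i) ≤ ε → z ∈ U i := by
  classical
  have h1 : ∀ i, ∃ ε : ℝ, 0 < ε ∧ ∀ z, dist z (a i) ≤ ε → z ∈ U i := by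
    intro i
    obtain ⟨ε, hε, h⟩ := Metric.nhds_basis_closedBall.mem_iff.mp (hU i)
    exact ⟨ε, hε, fun z hz => h hz⟩
  choose e he h using h1
  refine ⟨(∑ i, (e i)⁻¹ + 1)⁻¹, ?_, ?_⟩
  · have : 0 ≤ ∑ i, (e i)⁻¹ := Finset.sum_nonneg fun i _ => (inv_pos.mpr (he i)).le
    positivity
  · intro i z hz
    refine h i z (hz.trans ?_)
    have h2 : (e i)⁻¹ ≤ ∑ i, (e i)⁻¹ + 1 := by
      have := Finset.single_le_sum (f := fun i => (e i)⁻¹) (fun i _ => (inv_pos.mpr (he i)).le) (Finset.mem_univ i)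
      linarith
    have h3 : 0 < (e i)⁻¹ := inv_pos.mpr (he i)
    calc (∑ i, (e i)⁻¹ + 1)⁻¹ ≤ ((e i)⁻¹)⁻¹ := inv_anti₀ h3 h2
      _ = e i := inv_inv _

end Pool.Agent.Q44.WK
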