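import Mathlib

/-!
# Project WK: Mazur's question for the K3 surfaces with two involutions in `P² x P²` (definitions)

`X` is the surface in `P² x P²` given by a form `lin` of bidegree (1,1) and a form `quad` of bidegree
(2,2). If the fibres of the two projections are finite, then they have two points (with multiplicity), and
`X` has two involutions, which exchange the points of the fibres.
-/

set_option autoImplicit false

namespace Pool.Agent.Q44.WK

/-- homogeneous coordinates in the plane -/
abbrev V (F : Type) : Type := Fin 3 → F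

/-- the coefficients of two forms of bidegree (1,1) and (2,2) -/
structure Dat (F : Type) where
  a : Fin 3 → Fin 3 → F
  b : Fin 3 → Fin 3 → Fin 3 → Fin 3 → F

namespace Dat

variable {F : Type} [CommRing F]

/-- the same surface with the two planes exchanged -/
def swap (D : Dat F) : Dat F := ⟨fun i j => D.a j i, fun i j k l => D.b k l i j⟩

/-- the image under a homomorphism -/
def map {E : Type} [CommRing E] (σ : F →+* E) (D : Dat F) : Dat E :=
  ⟨fun i j => σ (D.a i j), fun i j k l => σ (D.b i j k l)⟩

/-- the form of bidegree (1,1) -/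
def lin (D : Dat F) (x y : V F) : F := ∑ i, ∑ j, D.a i j * x i * y j

/-- the form of bidegree (2,2) -/
def quad (D : Dat F) (x y : V F) : F := ∑ i, ∑ j, ∑ k, ∑ l, D.b i j k l * x i * x j * y k * y l

/-- the coefficients of the linear form `lin x` -/
def lam (D : Dat F) (x : V F) : V F := fun j => ∑ i, D.a i j * x i

/-- the symmetric matrix of the quadratic form `2 * quad x` -/
def sym (D : Dat F) (x : V F) (k l : Fin 3) : F := ∑ i, ∑ j, (D.b i j k l + D.b i j l k) * x i * x j

/-- the vector product of `v` with the unit vectors -/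
def cr (v : V F) : Fin 3 → V F := ![![0, v 2, - v 1], ![- v 2, 0, v 0], ![v 1, - v 0, 0]]

/-- The quartic forms `G x a b = G x b a`: the matrix of the quadratic form `m ↦ 2 * quad x (lam x × m)`. If
`y`, `y'` are the two points of the fibre over `x`, then `y a * y' b + y b * y' a = c * G x a b`. -/
def G (D : Dat F) (x : V F) (a b : Fin 3) : F :=
  ∑ k, ∑ l, cr (D.lam x) a k * D.sym x k l * cr (D.lam x) b l

/-- `(x, y)` is a point of the surface -/
def On (D : Dat F) (x y : V F) : Prop := x ≠ 0 ∧ y ≠ 0 ∧ D.lin x y = 0 ∧ D.quad x y = 0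

/-- `y` and `y'` are the two points of the fibre over `x` -/
def Adj (D : Dat F) (x y y' : V F) : Prop :=
  ∃ c : F, c ≠ 0 ∧ ∀ a b, y a * y' b + y b * y' a = c * D.G x a b

/-- the fibres of the first projection are finite (over the field `F`) -/
def Fin1 (D : Dat F) : Prop := ∀ x : V F, x ≠ 0 → ∃ a b, D.G x a b ≠ 0

/-- `D` for even `k`, the surface with exchanged planes for odd `k` -/
def alt (D : Dat F) (k : ℕ) : Dat F := if k % 2 = 0 then D else D.swap

/-- a chain: `z 0, z 1, z 2, ...` with `(z 0, z 1), (z 2, z 1), (z 2, z 3), ...` on the surface, obtained by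
applying the two involutions alternately. -/
def Chain (D : Dat F) (z : ℕ → V F) : Prop :=
  ∀ k, (D.alt k).On (z k) (z (k + 1)) ∧ (D.alt (k + 1)).Adj (z (k + 1)) (z k) (z (k + 2))

open MvPolynomial in
/-- the two forms as polynomials -/
noncomputable def linP (D : Dat F) : MvPolynomial (Fin 3 ⊕ Fin 3) F :=
  ∑ i, ∑ j, C (D.a i j) * X (Sum.inl i) * X (Sum.inr j)

open MvPolynomial in
/-- the form of bidegree (2,2) as a polynomial -/
noncomputable def quadP (D : Dat F) : MvPolynomial (Fin 3 ⊕ Fin 3) F :=
  ∑ i, ∑ j, ∑ k, ∑ l, C (D.b i j k l) * X (Sum.inl i) * X (Sum.inl j) * X (Sum.inr k) * X (Sum.inr l)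

/-- the ideal of the surface -/
noncomputable def ideal (D : Dat F) : Ideal (MvPolynomial (Fin 3 ⊕ Fin 3) F) :=
  (Ideal.span {D.linP, D.quadP}).radical

end Dat

/-- good reduction: integral coefficients, residue characteristic different from two, finite fibres modulo the
maximal ideal -/
def Good {L : Type} [NormedField L] (D : Dat L) : Prop :=
  (∀ i j, ‖D.a i j‖ ≤ 1) ∧ (∀ i j k l, ‖D.b i j k l‖ ≤ 1) ∧ ‖(2 : L)‖ = 1 ∧
  ∀ x : V L, ‖x‖ = 1 → (∃ a b, ‖D.G x a b‖ = 1) ∧ ∃ a b, ‖D.swap.G x a b‖ = 1

/-- `x` and `y` (of norm one) define points of the projective plane at distance at most `ε` -/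
def Near {L : Type} [NormedField L] (ε : ℝ) (x y : V L) : Prop := ∃ s : L, ‖s‖ = 1 ∧ ‖x - s • y‖ ≤ ε

end Pool.Agent.Q44.WK
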