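import Pool.Agent.Q44.WK.Stm

/-!
# Project WK: finite fibres
-/

set_option autoImplicit false

namespace Pool.Agent.Q44.WK

/-- a vector orthogonal to `l ≠ 0` is a vector product with `l` -/
theorem exists_cross {F : Type} [Field F] {l y : V F} (hl : l ≠ 0) (h : l 0 * y 0 + l 1 * y 1 + l 2 * y 2 = 0) :
    ∃ m : V F, y 0 = l 1 * m 2 - l 2 * m 1 ∧ y 1 = l 2 * m 0 - l 0 * m 2 ∧ y 2 = l 0 * m 1 - l 1 * m 0 := by
  by_cases h2 : l 2 = 0
  · by_cases h1 : l 1 = 0
    · have h0 : l 0 ≠ 0 := by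
        intro h0
        apply hl
        funext i
        fin_cases i <;> assumption
      refine ⟨![0, y 2 / l 0, - y 1 / l 0], ?_, ?_, ?_⟩
      · rw [h1, h2] at h
        have : l 0 * y 0 = 0 := by linear_combination h
        rcases mul_eq_zero.mp this with h | h
        · exact absurd h h0
        · simp [h, h1, h2]
      · simp [h2]; field_simp
      · simp [h1]; field_simp
    · refine ⟨![- y 2 / l 1, 0, y 0 / l 1], ?_, ?_, ?_⟩
      · simp; field_simp
      · simp [h2]
        field_simp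
        rw [h2] at h
        linear_combination h
      · simp; field_simp
  · refine ⟨![y 1 / l 2, - y 0 / l 2, 0], ?_, ?_, ?_⟩
    · simp; field_simp
    · simp; field_simp
    · simp
      field_simp
      linear_combination h

/-- `∑ m_a m_b G x a b = 2 quad x (lam × m)` -/
theorem sum_G {F : Type} [CommRing F] (D : Dat F) (x y m : V F)
    (h0 : y 0 = D.lam x 1 * m 2 - D.lam x 2 * m 1) (h1 : y 1 = D.lam x 2 * m 0 - D.lam x 0 * m 2)
    (h2 : y 2 = D.lam x 0 * m 1 - D.lam x 1 * m 0) :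
    ∑ a, ∑ b, m a * m b * D.G x a b = 2 * D.quad x y := by
  have e1 : ∑ a, ∑ b, m a * m b * D.G x a b = ∑ k, ∑ l, D.sym x k l * y k * y l := by
    simp only [Dat.G, Fin.sum_univ_three, h0, h1, h2, Dat.cr]
    simp
    ring
  rw [e1]
  simp only [Dat.sym, Dat.quad, Fin.sum_univ_three]
  ring

theorem fib : S_fib := by
  intro F _ h2 D hD x hx
  by_contra hc
  push Not at hc
  obtain ⟨⟨y1, hy1⟩, y, hy, hq⟩ := hD x hx
  have hlam : ∀ y, D.lin x y = D.lam x 0 * y 0 + D.lam x 1 * y 1 + D.lam x 2 * y 2 := by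
    intro y
    simp only [Dat.lin, Dat.lam, Fin.sum_univ_three]
    ring
  have hl : D.lam x ≠ 0 := by
    intro h
    apply hy1
    rw [hlam, h]
    simp
  rw [hlam] at hy
  obtain ⟨m, e0, e1, e2⟩ := exists_cross hl hy
  have e := sum_G D x y m e0 e1 e2
  simp only [hc, mul_zero, Finset.sum_const_zero] at e
  exact mul_ne_zero h2 hq e.symm

end Pool.Agent.Q44.WK
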